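import Pool.Agent.Y934.BEF.Stm
import Pool.Agent.Helper577.Miranda

/-!
BEF-TWO: zeros of `a(x) + b(x) e^{-2π i θ d} + R(x, θ)` by the planar Poincare-Miranda theorem.
-/

set_option autoImplicit false

namespace Pool.Agent.Y905.BEF

open Set Complex

/-- Poincare-Miranda with signs, for functions continuous on the rectangle only. -/
theorem rect {F : ℝ × ℝ → ℂ} {x₁ x₂ t₁ t₂ : ℝ} (hx : x₁ ≤ x₂) (ht : t₁ ≤ t₂)
    (hF : ContinuousOn F (Icc x₁ x₂ ×ˢ Icc t₁ t₂)) (α β : ℝ)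
    (h1 : ∀ s ∈ Icc x₁ x₂, α * (F (s, t₁)).im < 0) (h2 : ∀ s ∈ Icc x₁ x₂, 0 < α * (F (s, t₂)).im)
    (h3 : ∀ u ∈ Icc t₁ t₂, β * (F (x₁, u)).re < 0) (h4 : ∀ u ∈ Icc t₁ t₂, 0 < β * (F (x₂, u)).re) :
    ∃ s ∈ Ioo x₁ x₂, ∃ u ∈ Ioo t₁ t₂, F (s, u) = 0 := by
  let p : ℝ × ℝ → ℝ × ℝ := fun z => (max x₁ (min z.1 x₂), max t₁ (min z.2 t₂))
  have hp : Continuous p := by fun_prop
  have hpm : ∀ z, p z ∈ Icc x₁ x₂ ×ˢ Icc t₁ t₂ := fun z =>
    ⟨⟨le_max_left _ _, max_le hx (min_le_right _ _)⟩,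
      ⟨le_max_left _ _, max_le ht (min_le_right _ _)⟩⟩
  have hpe : ∀ s ∈ Icc x₁ x₂, ∀ u ∈ Icc t₁ t₂, p (s, u) = (s, u) := fun s hs u hu => by
    simp only [p]
    rw [min_eq_left hs.2, max_eq_right hs.1, min_eq_left hu.2, max_eq_right hu.1]
  have hFp : Continuous fun z => F (p z) := hF.comp_continuous hp hpm
  let G : ℝ × ℝ → ℂ := fun z =>
    ((α * (F (p z)).im : ℝ) : ℂ) + ((β * (F (p z)).re : ℝ) : ℂ) * I
  have hG : Continuous G := by
    have e1 : Continuous fun z => (F (p z)).im := Complex.continuous_im.comp hFp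
    have e2 : Continuous fun z => (F (p z)).re := Complex.continuous_re.comp hFp
    exact (Complex.continuous_ofReal.comp (continuous_const.mul e1)).add
      ((Complex.continuous_ofReal.comp (continuous_const.mul e2)).mul continuous_const)
  have hre : ∀ z, (G z).re = α * (F (p z)).im := fun z => by simp [G]
  have him : ∀ z, (G z).im = β * (F (p z)).re := fun z => by simp [G]
  obtain ⟨s, hs, u, hu, h0⟩ := Pool.Agent.Helper577.miranda hG hx ht
    (fun s hs => by rw [hre, hpe s hs t₁ (left_mem_Icc.2 ht)]; exact h1 s hs)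
    (fun s hs => by rw [hre, hpe s hs t₂ (right_mem_Icc.2 ht)]; exact h2 s hs)
    (fun u hu => by rw [him, hpe x₁ (left_mem_Icc.2 hx) u hu]; exact h3 u hu)
    (fun u hu => by rw [him, hpe x₂ (right_mem_Icc.2 hx) u hu]; exact h4 u hu)
  have hr0 : α * (F (s, u)).im = 0 := by
    have := hre (s, u)
    rw [h0, hpe s hs u hu] at this
    simpa using this.symm
  have hi0 : β * (F (s, u)).re = 0 := by
    have := him (s, u)
    rw [h0, hpe s hs u hu] at this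
    simpa using this.symm
  have hα : α ≠ 0 := fun h => by
    have := h1 x₁ (left_mem_Icc.2 hx)
    rw [h] at this
    simp at this
  have hβ : β ≠ 0 := fun h => by
    have := h3 t₁ (left_mem_Icc.2 ht)
    rw [h] at this
    simp at this
  have hF0 : F (s, u) = 0 := by
    apply Complex.ext
    · simpa [hβ] using hi0
    · simpa [hα] using hr0
  refine ⟨s, ⟨lt_of_le_of_ne hs.1 ?_, lt_of_le_of_ne hs.2 ?_⟩, u,
    ⟨lt_of_le_of_ne hu.1 ?_, lt_of_le_of_ne hu.2 ?_⟩, hF0⟩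
  · rintro rfl
    have := h3 u hu
    rw [hF0] at this
    simp at this
  · rintro rfl
    have := h4 u hu
    rw [hF0] at this
    simp at this
  · rintro rfl
    have := h1 s hs
    rw [hF0] at this
    simp at this
  · rintro rfl
    have := h2 s hs
    rw [hF0] at this
    simp at this

/-- A continuous function without zeros on an interval has a constant sign. -/
theorem const_sign {b : ℝ → ℝ} {x₁ x₂ : ℝ} (hb : ContinuousOn b (Icc x₁ x₂))
    (h0 : ∀ x ∈ Icc x₁ x₂, b x ≠ 0) (hx : x₁ ≤ x₂) :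
    ∃ ε : ℝ, (ε = 1 ∨ ε = -1) ∧ ∀ x ∈ Icc x₁ x₂, ε * b x = |b x| := by
  have h1 := h0 x₁ (left_mem_Icc.2 hx)
  rcases lt_or_gt_of_ne h1 with h | h
  · refine ⟨-1, Or.inr rfl, fun x hxx => ?_⟩
    have hneg : b x < 0 := by
      by_contra hc
      push Not at hc
      have hsub : Icc x₁ x ⊆ Icc x₁ x₂ := Icc_subset_Icc_right hxx.2
      have : (0 : ℝ) ∈ Icc (b x₁) (b x) := ⟨h.le, hc⟩
      obtain ⟨y, hy, hy0⟩ := intermediate_value_Icc hxx.1 (hb.mono hsub) this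
      exact h0 y (hsub hy) hy0
    rw [abs_of_neg hneg]; ring
  · refine ⟨1, Or.inl rfl, fun x hxx => ?_⟩
    have hpos : 0 < b x := by
      by_contra hc
      push Not at hc
      have hsub : Icc x₁ x ⊆ Icc x₁ x₂ := Icc_subset_Icc_right hxx.2
      have : (0 : ℝ) ∈ Icc (b x) (b x₁) := ⟨hc, h.le⟩
      obtain ⟨y, hy, hy0⟩ := intermediate_value_Icc' hxx.1 (hb.mono hsub) this
      exact h0 y (hsub hy) hy0
    rw [abs_of_pos hpos]; ring

theorem expo (t d : ℝ) : Complex.exp (-(2 * (Real.pi : ℂ) * Complex.I * ((t : ℂ) * (d : ℂ)))) =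
    (Real.cos (2 * Real.pi * (t * d)) : ℂ) - (Real.sin (2 * Real.pi * (t * d)) : ℂ) * I := by
  have : -(2 * (Real.pi : ℂ) * Complex.I * ((t : ℂ) * (d : ℂ))) =
      ((-(2 * Real.pi * (t * d)) : ℝ) : ℂ) * I := by
    push_cast; ring
  rw [this, Complex.exp_mul_I, ← Complex.ofReal_cos, ← Complex.ofReal_sin, Real.cos_neg,
    Real.sin_neg]
  push_cast; ring

/-- The function of the theorem. -/
noncomputable def Fn (a b : ℝ → ℝ) (R : ℝ × ℝ → ℂ) (d : ℝ) (z : ℝ × ℝ) : ℂ :=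
  (a z.1 : ℂ) + (b z.1 : ℂ) *
    Complex.exp (-(2 * (Real.pi : ℂ) * Complex.I * ((z.2 : ℂ) * (d : ℂ)))) + R z

theorem Fn_re (a b : ℝ → ℝ) (R : ℝ × ℝ → ℂ) (d x t : ℝ) :
    (Fn a b R d (x, t)).re = a x + b x * Real.cos (2 * Real.pi * (t * d)) + (R (x, t)).re := by
  rw [Fn, expo]
  simp only [Complex.add_re, Complex.mul_re, Complex.sub_re, Complex.sub_im, Complex.mul_im,
    Complex.ofReal_re, Complex.ofReal_im, Complex.I_re, Complex.I_im]
  ring

theorem Fn_im (a b : ℝ → ℝ) (R : ℝ × ℝ → ℂ) (d x t : ℝ) :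
    (Fn a b R d (x, t)).im = -(b x * Real.sin (2 * Real.pi * (t * d))) + (R (x, t)).im := by
  rw [Fn, expo]
  simp only [Complex.add_im, Complex.mul_re, Complex.sub_re, Complex.sub_im, Complex.mul_im,
    Complex.ofReal_re, Complex.ofReal_im, Complex.I_re, Complex.I_im]
  ring

theorem Fn_cont {a b : ℝ → ℝ} {R : ℝ × ℝ → ℂ} {d x₁ x₂ t₁ t₂ : ℝ}
    (ha : ContinuousOn a (Icc x₁ x₂)) (hb : ContinuousOn b (Icc x₁ x₂))
    (hR : ContinuousOn R (Icc x₁ x₂ ×ˢ univ)) :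
    ContinuousOn (Fn a b R d) (Icc x₁ x₂ ×ˢ Icc t₁ t₂) := by
  have m1 : MapsTo Prod.fst (Icc x₁ x₂ ×ˢ Icc t₁ t₂) (Icc x₁ x₂) := fun z hz => hz.1
  have ha' : ContinuousOn (fun z : ℝ × ℝ => a z.1) (Icc x₁ x₂ ×ˢ Icc t₁ t₂) :=
    ha.comp continuousOn_fst m1
  have hb' : ContinuousOn (fun z : ℝ × ℝ => b z.1) (Icc x₁ x₂ ×ˢ Icc t₁ t₂) :=
    hb.comp continuousOn_fst m1
  have hR' : ContinuousOn R (Icc x₁ x₂ ×ˢ Icc t₁ t₂) :=
    hR.mono (prod_mono le_rfl (subset_univ _))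
  have he : Continuous fun z : ℝ × ℝ =>
      Complex.exp (-(2 * (Real.pi : ℂ) * Complex.I * ((z.2 : ℂ) * (d : ℂ)))) := by fun_prop
  unfold Fn
  exact ((Complex.continuous_ofReal.comp_continuousOn ha').add
    ((Complex.continuous_ofReal.comp_continuousOn hb').mul he.continuousOn)).add hR'

theorem q_gt : (7 : ℝ) / 10 < Real.sin (Real.pi / 4) := by
  rw [Real.sin_pi_div_four]
  have : (7 : ℝ) / 5 < Real.sqrt 2 := by
    rw [Real.lt_sqrt (by norm_num)]; norm_num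
  linarith

/-- The common part: the signs of the imaginary part. -/
theorem imag_signs {a b : ℝ → ℝ} {R : ℝ × ℝ → ℂ} {d x₁ x₂ : ℝ} {ε σ : ℝ}
    (hb0 : ∀ x ∈ Icc x₁ x₂, b x ≠ 0)
    (hR : ∀ x ∈ Icc x₁ x₂, ∀ θ, ‖R (x, θ)‖ ≤ |b x| / 4)
    (hε1 : ε = 1 ∨ ε = -1) (hε : ∀ x ∈ Icc x₁ x₂, ε * b x = |b x|) (hσ : σ = 1 ∨ σ = -1)
    {t : ℝ} {s : ℝ} (hs : s = 1 ∨ s = -1)
    (h : Real.sin (2 * Real.pi * (t * d)) = s * σ * Real.sin (Real.pi / 4)) :
    ∀ x ∈ Icc x₁ x₂, 0 < s * (-(ε * σ)) * (Fn a b R d (x, t)).im := by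
  intro x hx
  rw [Fn_im, h]
  have h1 : |(R (x, t)).im| ≤ |b x| / 4 := (Complex.abs_im_le_norm _).trans (hR x hx t)
  have hb : 0 < |b x| := abs_pos.2 (hb0 x hx)
  have hq := q_gt
  have e := hε x hx
  have h2 := abs_le.1 h1
  have ε2 : ε * ε = 1 := by rcases hε1 with rfl | rfl <;> norm_num
  have σ2 : σ * σ = 1 := by rcases hσ with rfl | rfl <;> norm_num
  have s2 : s * s = 1 := by rcases hs with rfl | rfl <;> norm_num
  have key : s * (-(ε * σ)) * (-(b x * (s * σ * Real.sin (Real.pi / 4))) + (R (x, t)).im) =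
      |b x| * Real.sin (Real.pi / 4) + s * (-(ε * σ)) * (R (x, t)).im := by
    rw [← e]
    linear_combination (ε * b x * Real.sin (Real.pi / 4)) * (s * s * σ2 + s2)
  rw [key]
  have h3 : |s * (-(ε * σ)) * (R (x, t)).im| ≤ |b x| / 4 := by
    rw [abs_mul]
    have : |s * (-(ε * σ))| = 1 := by
      rcases hε1 with rfl | rfl <;> rcases hσ with rfl | rfl <;> rcases hs with rfl | rfl <;>
        norm_num
    rw [this, one_mul]; exact h1
  have h4 := (abs_le.1 h3).1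
  nlinarith


theorem twoA : Pool.Agent.Y934.BEF.TwoAStm := by
  intro a b R x₁ x₂ hx ha hb hR hb0 hRb hab₁ hab₂ hsgn d hd r
  obtain ⟨ε, hε1, hε⟩ := const_sign hb hb0 hx.le
  have hD : (0 : ℝ) < |(d : ℝ)| := abs_pos.2 (by exact_mod_cast hd)
  set D : ℝ := |(d : ℝ)| with hDdef
  obtain ⟨s, hs1, hs⟩ : ∃ s : ℝ, (s = 1 ∨ s = -1) ∧ (d : ℝ) = s * D := by
    rcases le_total 0 (d : ℝ) with h | h
    · exact ⟨1, Or.inl rfl, by rw [hDdef, abs_of_nonneg h]; ring⟩
    · exact ⟨-1, Or.inr rfl, by rw [hDdef, abs_of_nonpos h]; ring⟩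
  obtain ⟨ρ, hρ1, hρ⟩ : ∃ ρ : ℝ, (ρ = 1 ∨ ρ = -1) ∧
      ∀ y, Real.sin (Real.pi * r + y) = ρ * Real.sin y := by
    rcases Int.even_or_odd r with ⟨m, hm⟩ | ⟨m, hm⟩
    · refine ⟨1, Or.inl rfl, fun y => ?_⟩
      have : Real.pi * (r : ℝ) + y = y + m * (2 * Real.pi) := by rw [hm]; push_cast; ring
      rw [this, Real.sin_add_int_mul_two_pi, one_mul]
    · refine ⟨-1, Or.inr rfl, fun y => ?_⟩
      have : Real.pi * (r : ℝ) + y = (y + Real.pi) + m * (2 * Real.pi) := by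
        rw [hm]; push_cast; ring
      rw [this, Real.sin_add_int_mul_two_pi, Real.sin_add_pi]; ring
  set θ₀ : ℝ := r / (2 * D) with hθ₀
  set τ : ℝ := 1 / (8 * D) with hτ
  have hτ0 : 0 < τ := by positivity
  have hsin : ∀ e : ℝ, (e = 1 ∨ e = -1) →
      Real.sin (2 * Real.pi * ((θ₀ + e * τ) * d)) = e * (s * ρ) * Real.sin (Real.pi / 4) := by
    intro e he
    have h1 : 2 * Real.pi * ((θ₀ + e * τ) * d) = s * (Real.pi * r + e * (Real.pi / 4)) := by
      rw [hs, hθ₀, hτ]; field_simp; ring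
    rw [h1]
    rcases hs1 with rfl | rfl <;> rcases he with rfl | rfl
    · rw [one_mul, hρ]; ring_nf
    · rw [one_mul, hρ]
      rw [show (-1 : ℝ) * (Real.pi / 4) = -(Real.pi / 4) by ring, Real.sin_neg]; ring
    · rw [neg_one_mul, Real.sin_neg, hρ]; ring_nf
    · rw [neg_one_mul, Real.sin_neg, hρ]
      rw [show (-1 : ℝ) * (Real.pi / 4) = -(Real.pi / 4) by ring, Real.sin_neg]; ring
  have hσ : s * ρ = 1 ∨ s * ρ = -1 := by
    rcases hs1 with rfl | rfl <;> rcases hρ1 with rfl | rfl <;> norm_num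
  have hlo := imag_signs (a := a) (R := R) (d := (d : ℝ)) (ε := ε) (σ := s * ρ)
    hb0 hRb hε1 hε hσ (t := θ₀ + (-1) * τ) (s := -1) (Or.inr rfl)
    (by rw [hsin (-1) (Or.inr rfl)])
  have hhi := imag_signs (a := a) (R := R) (d := (d : ℝ)) (ε := ε) (σ := s * ρ)
    hb0 hRb hε1 hε hσ (t := θ₀ + 1 * τ) (s := 1) (Or.inl rfl)
    (by rw [hsin 1 (Or.inl rfl)])
  have hre : ∀ x ∈ Icc x₁ x₂, ∀ u, |(Fn a b R d (x, u)).re - a x| ≤ 5 / 4 * |b x| := by
    intro x hxx u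
    rw [Fn_re]
    have e1 : |(R (x, u)).re| ≤ |b x| / 4 := (Complex.abs_re_le_norm _).trans (hRb x hxx u)
    have e2 : |b x * Real.cos (2 * Real.pi * (u * d))| ≤ |b x| := by
      rw [abs_mul]
      exact mul_le_of_le_one_right (abs_nonneg _) (Real.abs_cos_le_one _)
    have e3 : a x + b x * Real.cos (2 * Real.pi * (u * d)) + (R (x, u)).re - a x =
      b x * Real.cos (2 * Real.pi * (u * d)) + (R (x, u)).re := by ring
    rw [e3]
    refine (abs_add_le _ _).trans ?_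
    linarith
  have hb1 : 0 < |b x₁| := abs_pos.2 (hb0 _ (left_mem_Icc.2 hx.le))
  have hb2 : 0 < |b x₂| := abs_pos.2 (hb0 _ (right_mem_Icc.2 hx.le))
  have ha1 : a x₁ ≠ 0 := fun h => by rw [h, zero_mul] at hsgn; exact lt_irrefl _ hsgn
  obtain ⟨β, hβ1, hβ2⟩ : ∃ β : ℝ, β * a x₁ = -|a x₁| ∧ β * a x₂ = |a x₂| ∧ |β| = 1 := by
    rcases lt_or_gt_of_ne ha1 with h | h
    · have h2 : 0 < a x₂ := by
        by_contra hc
        push Not at hc
        exact absurd hsgn (not_lt.2 (mul_nonneg_of_nonpos_of_nonpos h.le hc))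
      exact ⟨1, by rw [abs_of_neg h]; ring, by rw [abs_of_pos h2]; ring, by norm_num⟩
    · have h2 : a x₂ < 0 := by
        by_contra hc
        push Not at hc
        exact absurd hsgn (not_lt.2 (mul_nonneg h.le hc))
      exact ⟨-1, by rw [abs_of_pos h]; ring, by rw [abs_of_neg h2]; ring, by norm_num⟩
  have hβre : ∀ x ∈ Icc x₁ x₂, ∀ u, |β * (Fn a b R d (x, u)).re - β * a x| ≤ 5 / 4 * |b x| := by
    intro x hxx u
    rw [← mul_sub, abs_mul, hβ2.2, one_mul]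
    exact hre x hxx u
  obtain ⟨x, hxm, θ, hθ, h0⟩ := rect (F := Fn a b R d) (x₁ := x₁) (x₂ := x₂)
    (t₁ := θ₀ + (-1) * τ) (t₂ := θ₀ + 1 * τ) hx.le (by linarith) (Fn_cont ha hb hR)
    (-(ε * (s * ρ))) β
    (fun x hxx => by have := hlo x hxx; linarith)
    (fun x hxx => by have := hhi x hxx; linarith)
    (fun u _ => by
      have h := (abs_le.1 (hβre x₁ (left_mem_Icc.2 hx.le) u)).2
      linarith)
    (fun u _ => by
      have h := (abs_le.1 (hβre x₂ (right_mem_Icc.2 hx.le) u)).1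
      linarith [hβ2.1])
  refine ⟨x, hxm, θ, ?_, ?_⟩
  · rw [abs_lt]
    have hτ2 : τ < 1 / (4 * D) := by
      rw [hτ]
      exact one_div_lt_one_div_of_lt (by positivity) (by linarith)
    constructor
    · linarith [hθ.1]
    · linarith [hθ.2]
  · have := h0
    unfold Fn at this
    push_cast at this ⊢
    exact this

theorem twoB : Pool.Agent.Y934.BEF.TwoBStm := by
  intro a b R x₁ x₂ hx ha hb hR ha0 hb0 hRb hab₁ hab₂ d hd
  obtain ⟨ε, hε1, hε⟩ := const_sign hb hb0 hx.le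
  obtain ⟨ζ, hζ1, hζ⟩ := const_sign ha ha0 hx.le
  have hD : (0 : ℝ) < (d : ℝ) := by exact_mod_cast Nat.pos_of_ne_zero hd
  -- the sign of the cosine
  obtain ⟨φ, η, hη, hcs, hsn⟩ : ∃ φ η : ℝ, η = -(ε * ζ) ∧
      (∀ y, Real.cos (2 * Real.pi * φ + y) = η * Real.cos y) ∧
      (∀ y, Real.sin (2 * Real.pi * φ + y) = η * Real.sin y) := by
    by_cases h : ε * ζ = 1
    · refine ⟨1 / 2, -1, by rw [h], fun y => ?_, fun y => ?_⟩
      · rw [show 2 * Real.pi * (1 / 2) + y = y + Real.pi by ring, Real.cos_add_pi]; ring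
      · rw [show 2 * Real.pi * (1 / 2) + y = y + Real.pi by ring, Real.sin_add_pi]; ring
    · have h' : ε * ζ = -1 := by
        rcases hε1 with rfl | rfl <;> rcases hζ1 with rfl | rfl <;>
          first | (norm_num; done) | (exfalso; apply h; norm_num)
      refine ⟨0, 1, by rw [h']; ring, fun y => ?_, fun y => ?_⟩ <;> simp
  have hη1 : η = 1 ∨ η = -1 := by
    rw [hη]
    rcases hε1 with rfl | rfl <;> rcases hζ1 with rfl | rfl <;> norm_num
  refine ⟨φ, fun r => ?_⟩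
  set θ₀ : ℝ := (r + φ) / d with hθ₀
  set τ : ℝ := 1 / (8 * d) with hτ
  have hτ0 : 0 < τ := by positivity
  have harg : ∀ w : ℝ, 2 * Real.pi * ((θ₀ + w) * d) =
      (2 * Real.pi * φ + 2 * Real.pi * (w * d)) + r * (2 * Real.pi) := by
    intro w
    rw [hθ₀]; field_simp; ring
  have hcos : ∀ w : ℝ, Real.cos (2 * Real.pi * ((θ₀ + w) * d)) =
      η * Real.cos (2 * Real.pi * (w * d)) := by
    intro w
    rw [harg, Real.cos_add_int_mul_two_pi, hcs]
  have hsin : ∀ e : ℝ, (e = 1 ∨ e = -1) →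
      Real.sin (2 * Real.pi * ((θ₀ + e * τ) * d)) = e * η * Real.sin (Real.pi / 4) := by
    intro e he
    rw [harg, Real.sin_add_int_mul_two_pi, hsn]
    have : 2 * Real.pi * (e * τ * d) = e * (Real.pi / 4) := by
      rw [hτ]; field_simp; ring
    rw [this]
    rcases he with rfl | rfl
    · rw [one_mul]; ring
    · rw [neg_one_mul, Real.sin_neg]; ring
  have hlo := imag_signs (a := a) (R := R) (d := ((d : ℕ) : ℝ)) (ε := ε) (σ := η)
    hb0 hRb hε1 hε hη1 (t := θ₀ + (-1) * τ) (s := -1) (Or.inr rfl)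
    (by rw [hsin (-1) (Or.inr rfl)])
  have hhi := imag_signs (a := a) (R := R) (d := ((d : ℕ) : ℝ)) (ε := ε) (σ := η)
    hb0 hRb hε1 hε hη1 (t := θ₀ + 1 * τ) (s := 1) (Or.inl rfl)
    (by rw [hsin 1 (Or.inl rfl)])
  have hx1 := left_mem_Icc.2 hx.le
  have hx2 := right_mem_Icc.2 hx.le
  have hb1 : 0 < |b x₁| := abs_pos.2 (hb0 _ hx1)
  have hb2 : 0 < |b x₂| := abs_pos.2 (hb0 _ hx2)
  have hζ2 : ζ * ζ = 1 := by rcases hζ1 with rfl | rfl <;> norm_num
  have hε2 : ε * ε = 1 := by rcases hε1 with rfl | rfl <;> norm_num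
  have hζabs : |ζ| = 1 := by rcases hζ1 with rfl | rfl <;> norm_num
  have hRre : ∀ x ∈ Icc x₁ x₂, ∀ u, |ζ * (R (x, u)).re| ≤ |b x| / 4 := by
    intro x hxx u
    rw [abs_mul, hζabs, one_mul]
    exact (Complex.abs_re_le_norm _).trans (hRb x hxx u)
  -- the real part, multiplied by `-ζ`
  have hval : ∀ x ∈ Icc x₁ x₂, ∀ w : ℝ, (-ζ) * (Fn a b R (d : ℝ) (x, θ₀ + w)).re =
      -|a x| + |b x| * Real.cos (2 * Real.pi * (w * d)) - ζ * (R (x, θ₀ + w)).re := by
    intro x hxx w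
    rw [Fn_re, hcos, ← hζ x hxx, ← hε x hxx, hη]
    linear_combination (b x * Real.cos (2 * Real.pi * (w * d)) * ε) * hζ2
  obtain ⟨x, hxm, θ, hθ, h0⟩ := rect (F := Fn a b R (d : ℝ)) (x₁ := x₁) (x₂ := x₂)
    (t₁ := θ₀ + (-1) * τ) (t₂ := θ₀ + 1 * τ) hx.le (by linarith) (Fn_cont ha hb hR)
    (-(ε * η)) (-ζ)
    (fun x hxx => by have := hlo x hxx; linarith)
    (fun x hxx => by have := hhi x hxx; linarith)
    (fun u _ => by
      have hu : u = θ₀ + (u - θ₀) := by ring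
      rw [hu, hval x₁ hx1]
      have h1 := (abs_le.1 (hRre x₁ hx1 (θ₀ + (u - θ₀)))).1
      have h2 : |b x₁| * Real.cos (2 * Real.pi * ((u - θ₀) * d)) ≤ |b x₁| :=
        mul_le_of_le_one_right hb1.le (Real.cos_le_one _)
      linarith)
    (fun u hu => by
      have hu' : u = θ₀ + (u - θ₀) := by ring
      rw [hu', hval x₂ hx2]
      have h1 := (abs_le.1 (hRre x₂ hx2 (θ₀ + (u - θ₀)))).2
      have hw : |u - θ₀| ≤ τ := abs_le.2 ⟨by linarith [hu.1], by linarith [hu.2]⟩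
      have h3 : |2 * Real.pi * ((u - θ₀) * d)| ≤ Real.pi / 4 := by
        have e1 : |2 * Real.pi * ((u - θ₀) * d)| = 2 * Real.pi * (|u - θ₀| * d) := by
          rw [abs_mul (2 * Real.pi), abs_mul (u - θ₀),
            abs_of_pos (by positivity : (0 : ℝ) < 2 * Real.pi), abs_of_pos hD]
        rw [e1]
        have e2 : |u - θ₀| * d ≤ τ * d := mul_le_mul_of_nonneg_right hw hD.le
        have e3 : τ * d = 1 / 8 := by rw [hτ]; field_simp
        nlinarith [Real.pi_pos]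
      have h4 : Real.cos (Real.pi / 4) ≤ Real.cos (2 * Real.pi * ((u - θ₀) * d)) := by
        rw [← Real.cos_abs (2 * Real.pi * ((u - θ₀) * d))]
        exact Real.cos_le_cos_of_nonneg_of_le_pi (abs_nonneg _)
          (by linarith [Real.pi_pos]) h3
      have h5 : (7 : ℝ) / 10 < Real.cos (Real.pi / 4) := by
        have := q_gt
        rwa [Real.sin_pi_div_four, ← Real.cos_pi_div_four] at this
      nlinarith)
  refine ⟨x, hxm, θ, ?_, ?_⟩
  · rw [abs_lt]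
    have hτ2 : τ < 1 / (2 * d) := by
      rw [hτ]
      exact one_div_lt_one_div_of_lt (by positivity) (by linarith)
    constructor
    · linarith [hθ.1]
    · linarith [hθ.2]
  · have := h0
    unfold Fn at this
    push_cast at this ⊢
    exact this

end Pool.Agent.Y905.BEF
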